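import Pool.Agent.W842.BV.Stms

set_option autoImplicit false

/-! # The packing lemma of Haussler -/

namespace Pool.Agent.W320.BV

open Finset Pool.Agent.W842.BV

theorem t_H3 : S_H3 := by
  intro hTRV hUD hBIN hH1 hH2 α _ _ 𝒜 r hr hfar hrn
  obtain ⟨d, hd⟩ : ∃ d, d = 𝒜.vcDim := ⟨_, rfl⟩
  obtain ⟨n, hn⟩ : ∃ n, n = Fintype.card α := ⟨_, rfl⟩
  rw [← hn] at hrn ⊢
  rw [← hd]
  have hr0 : (0 : ℝ) < r := by exact_mod_cast hr
  have hrn' : (r : ℝ) ≤ n := by exact_mod_cast hrn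
  have hn0 : (0 : ℝ) < n := by linarith
  have hbase : 1 ≤ 22 * (n : ℝ) / r := by
    rw [le_div_iff₀ hr0]
    linarith
  rcases le_or_gt 𝒜.card 1 with hN | hN
  · have h1 : (𝒜.card : ℝ) ≤ 1 := by exact_mod_cast hN
    exact h1.trans (one_le_pow₀ hbase)
  have hd1 : 1 ≤ d := by
    by_contra hcon
    have hd0 : d = 0 := by omega
    have h1 := 𝒜.card_le_card_shatterer.trans 𝒜.card_shatterer_le_sum_vcDim
    rw [← hd, hd0] at h1
    have h2 : (Finset.Iic 0 : Finset ℕ) = {0} := by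
      ext k
      simp
    rw [h2, Finset.sum_singleton, Nat.choose_zero_right] at h1
    omega
  have hd0 : (0 : ℝ) < d := by exact_mod_cast hd1
  obtain ⟨T, hT⟩ : ∃ T, T = 4 * d * n / r := ⟨_, rfl⟩
  have hTd : d ≤ T := by
    rw [hT, Nat.le_div_iff_mul_le (by omega)]
    nlinarith
  have hT1 : 4 * d * n ≤ (T + 1) * r := by
    have := Nat.lt_div_mul_add (a := 4 * d * n) (b := r) (by omega)
    rw [← hT] at this
    nlinarith
  have hT2 : T * r ≤ 4 * d * n := by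
    rw [hT]
    exact Nat.div_mul_le_self _ _
  obtain ⟨Φ, hΦ⟩ : ∃ Φ : ℝ, Φ = ((∑ j ∈ Finset.Iic d, T.choose j : ℕ) : ℝ) := ⟨_, rfl⟩
  have hsum1 : ((T : ℝ) + 1) * ((r : ℝ) * ((𝒜.card : ℝ) - Φ) * (n : ℝ) ^ T) ≤
      2 * ((d : ℝ) * 𝒜.card * (n : ℝ) ^ (T + 1)) := by
    have h1 : ∑ _i : Fin (T + 1), (r : ℝ) * ((𝒜.card : ℝ) - Φ) * (n : ℝ) ^ T ≤
        ∑ i : Fin (T + 1), 2 * ∑ x : Fin (T + 1) → α, (Wi 𝒜 x i : ℝ) := by
      apply Finset.sum_le_sum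
      intro i _
      have := hH2 hTRV α 𝒜 r T i hfar
      rw [← hd, ← hΦ, ← hn] at this
      exact this
    rw [Finset.sum_const, Finset.card_univ, Fintype.card_fin, nsmul_eq_mul] at h1
    push_cast at h1
    refine h1.trans ?_
    rw [← Finset.mul_sum, Finset.sum_comm]
    apply mul_le_mul_of_nonneg_left _ (by norm_num)
    have h2 : ∀ x : Fin (T + 1) → α, ∑ i, (Wi 𝒜 x i : ℝ) ≤ (d : ℝ) * 𝒜.card := by
      intro x
      have := hH1 hTRV hUD α 𝒜 (T + 1) x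
      rw [← hd] at this
      exact_mod_cast this
    refine (Finset.sum_le_sum fun x _ => h2 x).trans ?_
    rw [Finset.sum_const, Finset.card_univ, Fintype.card_fun, Fintype.card_fin, ← hn, nsmul_eq_mul]
    push_cast
    apply le_of_eq
    ring
  have hsum2 : ((T : ℝ) + 1) * (r : ℝ) * ((𝒜.card : ℝ) - Φ) ≤ 2 * (d : ℝ) * n * 𝒜.card := by
    have hnT : 0 < (n : ℝ) ^ T := by positivity
    have h1 : (((T : ℝ) + 1) * (r : ℝ) * ((𝒜.card : ℝ) - Φ)) * (n : ℝ) ^ T ≤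
        (2 * (d : ℝ) * n * 𝒜.card) * (n : ℝ) ^ T := by
      calc _ = ((T : ℝ) + 1) * ((r : ℝ) * ((𝒜.card : ℝ) - Φ) * (n : ℝ) ^ T) := by ring
        _ ≤ _ := hsum1
        _ = _ := by rw [pow_succ]; ring
    exact le_of_mul_le_mul_right h1 hnT
  have hΦ0 : 0 ≤ Φ := by rw [hΦ]; positivity
  have hN2 : (𝒜.card : ℝ) ≤ 2 * Φ := by
    rcases le_or_gt (𝒜.card : ℝ) Φ with h | h
    · linarith
    · have h1 : 4 * (d : ℝ) * n * ((𝒜.card : ℝ) - Φ) ≤ ((T : ℝ) + 1) * r * ((𝒜.card : ℝ) - Φ) := by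
        apply mul_le_mul_of_nonneg_right _ (by linarith)
        exact_mod_cast hT1
      have h2 : (2 * (d : ℝ) * n) * (2 * ((𝒜.card : ℝ) - Φ)) ≤ (2 * (d : ℝ) * n) * 𝒜.card := by
        linarith
      have h3 := le_of_mul_le_mul_left h2 (by positivity)
      linarith
  have hB := hBIN T d hd1 hTd
  rw [← hΦ] at hB
  have he : Real.exp 1 ≤ 11 / 4 := by
    have := Real.exp_one_lt_d9
    linarith
  have hb2 : Real.exp 1 * T / d ≤ 11 * (n : ℝ) / r := by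
    have hT2' : (T : ℝ) * r ≤ 4 * d * n := by exact_mod_cast hT2
    rw [div_le_div_iff₀ hd0 hr0]
    calc Real.exp 1 * T * r = Real.exp 1 * (T * r) := by ring
      _ ≤ 11 / 4 * (4 * d * n) := mul_le_mul he hT2' (by positivity) (by norm_num)
      _ = 11 * n * d := by ring
  have hb3 : Φ ≤ (11 * (n : ℝ) / r) ^ d :=
    hB.trans (pow_le_pow_left₀ (by positivity) hb2 d)
  have h2d : (2 : ℝ) ≤ 2 ^ d := by
    calc (2 : ℝ) = 2 ^ 1 := by norm_num
      _ ≤ 2 ^ d := pow_le_pow_right₀ (by norm_num) hd1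
  calc (𝒜.card : ℝ) ≤ 2 * Φ := hN2
    _ ≤ 2 ^ d * (11 * (n : ℝ) / r) ^ d := mul_le_mul h2d hb3 hΦ0 (by positivity)
    _ = (22 * (n : ℝ) / r) ^ d := by
      rw [← mul_pow]
      congr 1
      ring

end Pool.Agent.W320.BV
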