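import Pool.Agent.W842.BV.Stms

set_option autoImplicit false

/-! # Traces on a sample have at most the VC-dimension of the family -/

namespace Pool.Agent.W320.BV

open Finset Pool.Agent.W842.BV

theorem t_TRV : S_TRV := by
  intro α _ 𝒜 t x ℬ hℬ
  unfold Finset.vcDim
  apply Finset.sup_le
  intro S hS
  rw [Finset.mem_shatterer] at hS
  have hinj : Set.InjOn x (S : Set (Fin t)) := by
    intro i hi i' hi' hii
    by_contra hne
    have h1 : ({i} : Finset (Fin t)) ⊆ S := Finset.singleton_subset_iff.2 hi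
    obtain ⟨Q, hQ, hSQ⟩ := hS h1
    obtain ⟨A, _, hAQ⟩ := hℬ Q hQ
    have h2 : i ∈ S ∩ Q := by rw [hSQ]; exact Finset.mem_singleton_self i
    have h3 : i ∈ tr x A := by rw [hAQ]; exact (Finset.mem_inter.1 h2).2
    have h4 : x i ∈ A := (Finset.mem_filter.1 h3).2
    have h5 : i' ∈ tr x A := Finset.mem_filter.2 ⟨Finset.mem_univ _, by rw [← hii]; exact h4⟩
    rw [hAQ] at h5
    have h6 : i' ∈ S ∩ Q := Finset.mem_inter.2 ⟨hi', h5⟩
    rw [hSQ] at h6
    exact hne (Finset.mem_singleton.1 h6).symm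
  have hsh : 𝒜.Shatters (S.image x) := by
    intro T hT
    have h1 : S.filter (fun i => x i ∈ T) ⊆ S := Finset.filter_subset _ _
    obtain ⟨Q, hQ, hSQ⟩ := hS h1
    obtain ⟨A, hA, hAQ⟩ := hℬ Q hQ
    refine ⟨A, hA, ?_⟩
    ext y
    constructor
    · intro hy
      obtain ⟨h2, h3⟩ := Finset.mem_inter.1 hy
      obtain ⟨i, hi, rfl⟩ := Finset.mem_image.1 h2
      have h4 : i ∈ tr x A := Finset.mem_filter.2 ⟨Finset.mem_univ _, h3⟩
      rw [hAQ] at h4
      have h5 : i ∈ S ∩ Q := Finset.mem_inter.2 ⟨hi, h4⟩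
      rw [hSQ] at h5
      exact (Finset.mem_filter.1 h5).2
    · intro hy
      have h2 := hT hy
      obtain ⟨i, hi, rfl⟩ := Finset.mem_image.1 h2
      have h5 : i ∈ S.filter (fun i => x i ∈ T) := Finset.mem_filter.2 ⟨hi, hy⟩
      rw [← hSQ] at h5
      have h6 := (Finset.mem_inter.1 h5).2
      rw [← hAQ] at h6
      exact Finset.mem_inter.2 ⟨h2, (Finset.mem_filter.1 h6).2⟩
  have h := hsh.card_le_vcDim
  rw [Finset.card_image_of_injOn hinj] at h
  exact h

end Pool.Agent.W320.BV
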